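import Pool.Agent.D0H26.Gen.Class
import Pool.Agent.TH289.L.P3

set_option autoImplicit false

open scoped Manifold ContDiff Topology
open Set Filter

namespace Pool.Agent.Results.MP_5c499f_an.FactorsOfNilmanifoldMaps

open Pool.Agent.H721R2 Pool.Agent.H789R2.AN Pool.Agent.TH289.K Pool.Agent.TH289.L
  Pool.Agent.D0H26.Nilm Pool.Agent.D0H26.Gen
open TopologicalSpace (MetrizableSpace)

universe u v w

/-- `g` is a factor of a hyperbolic nilmanifold automorphism by a locally injective map with fibres
of bounded cardinality. -/
def BoundedFactor {X : Type v} [TopologicalSpace X] (g : X → X) : Prop :=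
  ∃ (V : Type u) (_ : NormedAddCommGroup V) (_ : NormedSpace ℝ V) (_ : FiniteDimensional ℝ V)
    (_ : Group V) (D : NilAut V) (F : V → X), Semi D g F ∧ Function.Surjective F ∧ BddToOne D F

/-- `g` is finitely covered by a hyperbolic nilmanifold automorphism. -/
def FinitelyNil {X : Type v} [TopologicalSpace X] (g : X → X) : Prop :=
  ∃ (V : Type u) (_ : NormedAddCommGroup V) (_ : NormedSpace ℝ V) (_ : FiniteDimensional ℝ V)
    (_ : Group V) (D : NilAut V) (F : V → X), Semi D g F ∧ Function.Surjective F ∧
    IsCoveringMap F ∧ ∀ a, ∃ S : Finset V, ∀ x, F x = a → ∃ s ∈ S, ∃ γ ∈ D.Γ, x = γ * s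

/-- `g` is topologically conjugate to a hyperbolic infranilmanifold automorphism. -/
def InfraNil {X : Type v} [TopologicalSpace X] (g : X → X) : Prop :=
  ∃ (V : Type u) (_ : NormedAddCommGroup V) (_ : NormedSpace ℝ V) (_ : FiniteDimensional ℝ V)
    (_ : Group V) (D : NilAut V) (F : V → X), Semi D g F ∧ InfraCover D F

/-- The factor map `F` is the composition of an affine surjection `x ↦ p x * c` onto a hyperbolic
nilmanifold automorphism `D'` and of a map `F'` with the property `P`. -/
def FactorsThrough {X : Type v} [TopologicalSpace X] (g : X → X) {V : Type u}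
    [NormedAddCommGroup V] [NormedSpace ℝ V] [Group V] (D : NilMap V) (F : V → X)
    (P : ∀ (V' : Type u) [NormedAddCommGroup V'] [NormedSpace ℝ V'] [Group V'],
      NilAut V' → (V' → X) → Prop) : Prop :=
  ∃ (V' : Type u) (_ : NormedAddCommGroup V') (_ : NormedSpace ℝ V')
    (_ : FiniteDimensional ℝ V') (_ : Group V') (D' : NilAut V') (p : V →ₗ[ℝ] V') (c : V')
    (F' : V' → X), AffQuot D D' p c ∧ Semi D' g F' ∧ (∀ x, F x = F' (p x * c)) ∧ P V' D' F'

/-- **Expansive systems built from affine diffeomorphisms of nilmanifolds.**
1. Let `g` be an expansive homeomorphism of a compact metrizable space `Y`, let `D` be ANY affine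
diffeomorphism of a compact nilmanifold (it need not be hyperbolic) and let `F` be any
semiconjugacy of `D` to `g` (not necessarily onto).  Then `F` is the composition of an affine
surjection onto a hyperbolic nilmanifold automorphism `D'` and of a semiconjugacy `F'` of `D'` to
`g` which is locally injective with fibres of bounded cardinality.
2. Let `NilClass` be the smallest class of homeomorphisms of compact Hausdorff spaces that contains
the affine diffeomorphisms of compact nilmanifolds and is closed under factors, roots, inverse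
limits of sequences, and extensions with connected fibres of entropy zero (for example bundles with
fibre a circle or an interval, or skew products with a compact connected group, by any
cocycle).  An expansive homeomorphism of a compact metrizable space is in this class if and only if
some power of it is a factor of a hyperbolic nilmanifold automorphism by a locally injective map
with fibres of bounded cardinality.
3. If `Y` is a closed (topological) manifold and `F` is onto, then `F'` in part 1 is a finite
covering whose deck transformations are affine.  An expansive homeomorphism of a closed manifold is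
in the class `NilClass` if and only if it is finitely covered by a hyperbolic nilmanifold
automorphism, if and only if it is topologically conjugate to a hyperbolic infranilmanifold
automorphism.
4. In particular a `C¹` Anosov diffeomorphism of a closed connected manifold in this class is
topologically conjugate to a hyperbolic infranilmanifold automorphism.  Nothing is assumed on the
dimensions, on the fibres, on the entropy or on the fundamental groups. -/
theorem result :
    (∀ (Y : Type v) [TopologicalSpace Y] [CompactSpace Y] [MetrizableSpace Y] (g : Y ≃ₜ Y),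
      Expansive g →
      (∀ (V : Type u) [NormedAddCommGroup V] [NormedSpace ℝ V] [FiniteDimensional ℝ V] [Group V]
        (D : NilMap V) (F : V → Y), AffSemi D g F →
        FactorsThrough g D F fun _ _ _ _ D' F' => BddToOne D' F') ∧
      (NilClass.{u, v} Y g ↔ ∃ n : ℕ, 1 ≤ n ∧ BoundedFactor.{u} (g^[n]))) ∧
    (∀ (E : Type w) [NormedAddCommGroup E] [NormedSpace ℝ E] [FiniteDimensional ℝ E]
      (M : Type v) [TopologicalSpace M] [T2Space M] [CompactSpace M] [ChartedSpace E M]
      (g : M ≃ₜ M), Expansive g →
      (∀ (V : Type u) [NormedAddCommGroup V] [NormedSpace ℝ V] [FiniteDimensional ℝ V] [Group V]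
        (D : NilMap V) (F : V → M), AffSemi D g F → Function.Surjective F →
        FactorsThrough g D F fun _ _ _ _ D' F' => BddToOne D' F' ∧ InfraCover D' F') ∧
      List.TFAE [NilClass.{u, v} M g, FinitelyNil.{u} g, InfraNil.{u} g]) ∧
    (∀ (E : Type w) [NormedAddCommGroup E] [NormedSpace ℝ E] [FiniteDimensional ℝ E]
      (M : Type v) [TopologicalSpace M] [T2Space M] [CompactSpace M] [ConnectedSpace M]
      [ChartedSpace E M] [IsManifold 𝓘(ℝ, E) ∞ M] (f : Diffeomorph 𝓘(ℝ, E) 𝓘(ℝ, E) M M 1)
      (Es Eu : ∀ x : M, Submodule ℝ (TangentSpace 𝓘(ℝ, E) x)), IsAnosov f Es Eu →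
      List.TFAE [NilClass.{u, v} M f.toHomeomorph, FinitelyNil.{u} f, InfraNil.{u} f]) := by
  have fac : ∀ (E : Type w) [NormedAddCommGroup E] [NormedSpace ℝ E] [FiniteDimensional ℝ E]
      (M : Type v) [TopologicalSpace M] [T2Space M] [CompactSpace M] [ChartedSpace E M]
      (g : M ≃ₜ M), Expansive g → ∀ (V : Type u) [NormedAddCommGroup V] [NormedSpace ℝ V]
      [FiniteDimensional ℝ V] [Group V] (D : NilMap V) (F : V → M), AffSemi D g F →
      Function.Surjective F →
      FactorsThrough g D F fun _ _ _ _ D' F' => BddToOne D' F' ∧ InfraCover D' F' := by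
    intro E _ _ _ M _ _ _ _ g hg V _ _ _ _ D F hF hs
    have hsc : SecondCountableTopology M := by
      have := ChartedSpace.secondCountable_of_sigmaCompact E M
      exact this
    have hmet : MetrizableSpace M :=
      TopologicalSpace.metrizableSpace_of_t3_secondCountable M
    obtain ⟨V', i1, i2, i3, i4, D', p, c, F', h1, h2, h3, h4⟩ := aff_structure g hg D F hF
    refine ⟨V', i1, i2, i3, i4, D', p, c, F', h1, h2, h3, h4, cover_thm E g D' F' h2 ?_ h4.1⟩
    intro y
    obtain ⟨x, rfl⟩ := hs y
    exact ⟨p x * c, (h3 x).symm⟩
  have aff : ∀ (X : Type v) [TopologicalSpace X] (g : X → X) (V : Type u)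
      [NormedAddCommGroup V] [NormedSpace ℝ V] [FiniteDimensional ℝ V] [Group V] (D : NilAut V)
      (F : V → X), Semi D g F → Function.Surjective F → AffineFactor.{u} g := by
    intro X _ g V i1 i2 i3 i4 D F hF hs
    obtain ⟨h2, h3, h4⟩ := hF
    refine ⟨V, i1, i2, i3, i4,
      { coord := D.coord
        nilpotent := D.nilpotent
        T := D.T
        T_mul := D.T_mul
        b := 1
        Γ := D.Γ
        T_Γ := D.T_Γ
        discrete := D.discrete
        cocompact := D.cocompact }, F, ⟨h2, h3, fun x => ?_⟩, hs⟩
    show F (D.T x * 1) = g (F x)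
    rw [mul_one]
    exact h4 x
  have key : ∀ (E : Type w) [NormedAddCommGroup E] [NormedSpace ℝ E] [FiniteDimensional ℝ E]
      (M : Type v) [TopologicalSpace M] [T2Space M] [CompactSpace M] [ChartedSpace E M]
      (g : M ≃ₜ M), Expansive g →
      List.TFAE [NilClass.{u, v} M g, FinitelyNil.{u} g, InfraNil.{u} g] := by
    intro E _ _ _ M _ _ _ _ g hg
    have hsc : SecondCountableTopology M := by
      have := ChartedSpace.secondCountable_of_sigmaCompact E M
      exact this
    have hmet : MetrizableSpace M :=
      TopologicalSpace.metrizableSpace_of_t3_secondCountable M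
    tfae_have 1 → 3 := by
      intro h
      obtain ⟨n, hn, V, _, _, _, _, D, F, hF, hs⟩ :=
        h.factor_expansive g hg id continuous_id Function.surjective_id fun _ => rfl
      have hF' : AffSemi D (powH g n) F := hF
      obtain ⟨V', i1, i2, i3, i4, D', p, c, F', h1, h2, h3, h4, h5⟩ :=
        fac E M (powH g n) (expansive_pow hg n hn) V D F hF' hs
      obtain ⟨D'', F'', h6, h7⟩ := root_thm Pool.Agent.D0H65.NIL.t_HYP
        Pool.Agent.D0H65.NIL.t_LANG E g hg n D' F' h2 h4.1 h5
      exact ⟨V', i1, i2, i3, i4, D'', F'', h6, h7⟩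
    tfae_have 3 → 2 := by
      rintro ⟨V, i1, i2, i3, i4, D, F, hF, h1, h2, h3, -⟩
      exact ⟨V, i1, i2, i3, i4, D, F, hF, h1, h2, h3⟩
    tfae_have 2 → 1 := by
      rintro ⟨V, i1, i2, i3, i4, D, F, hF, h1, -⟩
      exact NilClass.nil M g (aff M g V D F hF h1)
    tfae_finish
  refine ⟨?_, ?_, ?_⟩
  · intro Y _ _ _ g hg
    refine ⟨fun V _ _ _ _ D F hF => aff_structure g hg D F hF, fun h => ?_, ?_⟩
    · obtain ⟨n, hn, V, _, _, _, _, D, F, hF, hs⟩ :=
        h.factor_expansive g hg id continuous_id Function.surjective_id fun _ => rfl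
      have hF' : AffSemi D (powH g n) F := hF
      obtain ⟨V', i1, i2, i3, i4, D', p, c, F', h1, h2, h3, h4⟩ :=
        aff_structure (powH g n) (expansive_pow hg n hn) D F hF'
      refine ⟨n, hn, V', i1, i2, i3, i4, D', F', h2, fun y => ?_, h4⟩
      obtain ⟨x, rfl⟩ := hs y
      exact ⟨p x * c, (h3 x).symm⟩
    · rintro ⟨n, hn, V, i1, i2, i3, i4, D, F, hF, hs, -⟩
      exact NilClass.root Y g (powH g n) n hn (fun _ => rfl)
        (NilClass.nil Y (powH g n) (aff Y _ V D F hF hs))
  · intro E _ _ _ M _ _ _ _ g hg
    exact ⟨fun V _ _ _ _ D F hF hs => fac E M g hg V D F hF hs, key E M g hg⟩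
  · intro E _ _ _ M _ _ _ _ _ _ f Es Eu hf
    exact key E M f.toHomeomorph (expansive_of_anosov f Es Eu hf)

end Pool.Agent.Results.MP_5c499f_an.FactorsOfNilmanifoldMaps
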