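import Pool.Agent.D0H26.Fac.Main
import Pool.Agent.TH289.L.P3

set_option autoImplicit false

open scoped Manifold ContDiff Topology
open Set Filter

namespace Pool.Agent.Results.MP_5c499f_an.FactorsOfToralMaps

open Pool.Agent.H721R2 Pool.Agent.H789R2.AN Pool.Agent.TH289.K Pool.Agent.TH289.L
  Pool.Agent.D0H26.Fac
open Pool.Agent.H779R2.To (HypMat)
open TopologicalSpace (MetrizableSpace)

universe u v

/-- The torus `(ℝ/ℤ)ᵐ`. -/
abbrev Torus (m : ℕ) : Type := Fin m → AddCircle (1 : ℝ)

/-- `h` is a semiconjugacy of the surjective affine endomorphism `x ↦ A x + b` of a torus (`A` is an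
integer matrix with nonzero determinant) to `g` (it is not required to be surjective). -/
def Semi {X : Type*} [TopologicalSpace X] (g : X → X) {m : ℕ} (A : Matrix (Fin m) (Fin m) ℤ)
    (b : Torus m) (h : C(Torus m, X)) : Prop :=
  A.det ≠ 0 ∧ ∀ x, h (tm A x + b) = g (h x)

/-- `h(x) = h'(N x + c)`, where `x ↦ N x + c` is an affine surjection of tori that carries
`x ↦ A x + b` to the hyperbolic toral automorphism `B`, and `h' ∘ B = g ∘ h'`. -/
def Reduces {X : Type*} [TopologicalSpace X] (g : X → X) {m : ℕ} (A : Matrix (Fin m) (Fin m) ℤ)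
    (b : Torus m) (h : C(Torus m, X)) {k : ℕ} (B : Matrix (Fin k) (Fin k) ℤ)
    (N : Matrix (Fin k) (Fin m) ℤ) (c : Torus k) (h' : C(Torus k, X)) : Prop :=
  IsUnit B.det ∧ HypMat B ∧ Function.Surjective (tm N) ∧ N * A = B * N ∧
    tm N b + c = tm B c ∧ (∀ x, h x = h' (tm N x + c)) ∧ ∀ x, h' (tm B x) = g (h' x)

/-- `g` is a topological factor of a surjective affine endomorphism `x ↦ A x + b` of a torus. -/
def AffineFactor {X : Type*} [TopologicalSpace X] (g : X → X) : Prop :=
  ∃ (m : ℕ) (A : Matrix (Fin m) (Fin m) ℤ) (b : Torus m) (h : C(Torus m, X)),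
    Semi g A b h ∧ Function.Surjective h

/-- `g` is a topological factor of a hyperbolic toral automorphism. -/
def HyperbolicFactor {X : Type*} [TopologicalSpace X] (g : X → X) : Prop :=
  ∃ (m : ℕ) (A : Matrix (Fin m) (Fin m) ℤ) (h : C(Torus m, X)),
    IsUnit A.det ∧ HypMat A ∧ Function.Surjective h ∧ ∀ x, h (tm A x) = g (h x)

/-- `g` is finitely covered by a hyperbolic toral automorphism. -/
def FinitelyToral {X : Type*} [TopologicalSpace X] (g : X → X) : Prop :=
  ∃ (m : ℕ) (A : Matrix (Fin m) (Fin m) ℤ) (h : C(Torus m, X)),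
    IsUnit A.det ∧ HypMat A ∧ Function.Surjective h ∧ (∀ x, h (tm A x) = g (h x)) ∧
    IsCoveringMap h ∧ ∀ y, (h ⁻¹' {y}).Finite

/-- **Expansive factors of affine toral maps.**
1. Let `g` be an expansive homeomorphism of a compact metrizable space `Y`, let `A` be any integer
matrix with nonzero determinant, let `b` be a point of the torus, and let `h` be any continuous map
of the torus to `Y` with `h (A x + b) = g (h x)`.  Then `h` is the composition of an affine
surjection `x ↦ N x + c` of tori, which carries `x ↦ A x + b` to a hyperbolic toral automorphism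
`B`, and of a locally injective map `h'` with fibres of bounded cardinality, with
`h' ∘ B = g ∘ h'`.
2. If moreover `Y` is a closed (topological) manifold and `h` is surjective, then `h'` is a finite
covering map.  For an expansive homeomorphism `g` of a closed manifold the following are
equivalent: `g` is a factor of some surjective affine endomorphism of a torus; `g` is a factor of a
hyperbolic toral automorphism; `g` is finitely covered by a hyperbolic toral automorphism;
`g` is topologically conjugate to a hyperbolic infra-toral automorphism.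
3. In particular this holds for the `C¹` Anosov diffeomorphisms: an Anosov diffeomorphism of a
closed connected manifold that is a factor of an affine toral endomorphism is topologically
conjugate to a hyperbolic infra-toral automorphism.  Nothing is assumed on the dimensions, on the
fibres, on the entropy or on the fundamental groups. -/
theorem result :
    (∀ (Y : Type u) [TopologicalSpace Y] [CompactSpace Y] [MetrizableSpace Y] (g : Y ≃ₜ Y),
      Expansive g → ∀ (m : ℕ) (A : Matrix (Fin m) (Fin m) ℤ) (b : Torus m) (h : C(Torus m, Y)),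
      Semi g A b h →
      ∃ (k : ℕ) (B : Matrix (Fin k) (Fin k) ℤ) (N : Matrix (Fin k) (Fin m) ℤ) (c : Torus k)
        (h' : C(Torus k, Y)), Reduces g A b h B N c h' ∧
        (∀ x, ∃ U ∈ 𝓝 x, InjOn h' U) ∧ ∃ n : ℕ, ∀ y, (h' ⁻¹' {y}).encard ≤ n) ∧
    (∀ (E : Type v) [NormedAddCommGroup E] [NormedSpace ℝ E] [FiniteDimensional ℝ E]
      (M : Type u) [TopologicalSpace M] [T2Space M] [CompactSpace M] [ChartedSpace E M]
      (g : M ≃ₜ M), Expansive g →
      (∀ (m : ℕ) (A : Matrix (Fin m) (Fin m) ℤ) (b : Torus m) (h : C(Torus m, M)),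
        Semi g A b h → Function.Surjective h →
        ∃ (k : ℕ) (B : Matrix (Fin k) (Fin k) ℤ) (N : Matrix (Fin k) (Fin m) ℤ) (c : Torus k)
          (h' : C(Torus k, M)), Reduces g A b h B N c h' ∧
          IsCoveringMap h' ∧ ∀ y, (h' ⁻¹' {y}).Finite) ∧
      List.TFAE [AffineFactor g, HyperbolicFactor g, FinitelyToral g, InfraToral g]) ∧
    (∀ (E : Type v) [NormedAddCommGroup E] [NormedSpace ℝ E] [FiniteDimensional ℝ E]
      (M : Type u) [TopologicalSpace M] [T2Space M] [CompactSpace M] [ConnectedSpace M]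
      [ChartedSpace E M] [IsManifold 𝓘(ℝ, E) ∞ M] (f : Diffeomorph 𝓘(ℝ, E) 𝓘(ℝ, E) M M 1)
      (Es Eu : ∀ x : M, Submodule ℝ (TangentSpace 𝓘(ℝ, E) x)), IsAnosov f Es Eu →
      List.TFAE [AffineFactor f, HyperbolicFactor f, FinitelyToral f, InfraToral f]) := by
  have key : ∀ (E : Type v) [NormedAddCommGroup E] [NormedSpace ℝ E] [FiniteDimensional ℝ E]
      (M : Type u) [TopologicalSpace M] [T2Space M] [CompactSpace M] [ChartedSpace E M]
      (g : M ≃ₜ M), Expansive g →
      List.TFAE [AffineFactor g, HyperbolicFactor g, FinitelyToral g, InfraToral g] := by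
    intro E _ _ _ M _ _ _ _ g hg
    have h1 := main_iff E g hg
    have h2 : AffineFactor g ↔ ∃ (m : ℕ) (A : Matrix (Fin m) (Fin m) ℤ)
        (b : Fin m → AddCircle (1 : ℝ)) (h : C(Fin m → AddCircle (1 : ℝ), M)),
        A.det ≠ 0 ∧ Function.Surjective h ∧ ∀ x, h (tm A x + b) = g (h x) :=
      ⟨fun ⟨m, A, b, h, ⟨ha, hb⟩, hc⟩ => ⟨m, A, b, h, ha, hc, hb⟩,
        fun ⟨m, A, b, h, ha, hc, hb⟩ => ⟨m, A, b, h, ⟨ha, hb⟩, hc⟩⟩
    rw [h2]
    exact h1
  refine ⟨?_, ?_, ?_⟩
  · rintro Y _ _ _ g hg m A b h ⟨hA, hh⟩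
    obtain ⟨k, B, N, c, h', h1, h2, h3, h4, h5, h6, h7, h8, h9⟩ :=
      main_structure g hg A hA b h hh
    exact ⟨k, B, N, c, h', ⟨h1, h2, h3, h4, h5, h6, h7⟩, h8, h9⟩
  · intro E _ _ _ M _ _ _ _ g hg
    refine ⟨?_, key E M g hg⟩
    rintro m A b h ⟨hA, hh⟩ hs
    obtain ⟨k, B, N, c, h', h1, h2, h3, h4, h5, h6, h7, h8, h9⟩ :=
      (main_factor E g hg A hA b h hh hs).1
    exact ⟨k, B, N, c, h', ⟨h1, h2, h3, h4, h5, h6, h7⟩, h8, h9⟩
  · intro E _ _ _ M _ _ _ _ _ _ f Es Eu hf
    exact key E M f.toHomeomorph (expansive_of_anosov f Es Eu hf)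

end Pool.Agent.Results.MP_5c499f_an.FactorsOfToralMaps
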