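import Pool.Agent.D0H55.RC.Man

/-!
# MP_5c499f_an: Anosov diffeomorphisms with a conformal-like plane bundle at the periodic points
-/

set_option autoImplicit false

open scoped Manifold ContDiff Topology Bundle
open Set Filter Bundle

namespace Pool.Agent.Results.MP_5c499f_an.PlaneBundleToral

open Pool.Agent.H721R2 Pool.Agent.H789R2.AN Pool.Agent.H779R2.An Pool.Agent.H779R2.To
  Pool.Agent.H779R2.Nu Pool.Agent.H147R2.RI Pool.Agent.H576R3.CF

/-- For a point `p` with `fᵏ p = p`: the complex number `z` is an eigenvalue (a root of the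
characteristic polynomial) of the linear map `D(fᵏ)(p) : V p → V p`. -/
def Eigenvalue {E : Type*} [NormedAddCommGroup E] [NormedSpace ℝ E] [FiniteDimensional ℝ E]
    {M : Type*} [TopologicalSpace M] [ChartedSpace E M] (f : M → M)
    (V : ∀ x : M, Submodule ℝ (TangentSpace 𝓘(ℝ, E) x)) (k : ℕ) (p : M) (z : ℂ) : Prop :=
  let W : Submodule ℝ E := V p
  ∃ T : W →ₗ[ℝ] W, (∀ v : W, (T v : E) = mfderiv 𝓘(ℝ, E) 𝓘(ℝ, E) (f^[k]) p (v : E)) ∧
    (T.charpoly.map (algebraMap ℝ ℂ)).IsRoot z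

/-- All eigenvalues of the return map `D(fᵏ)` on `V p` have the same modulus, for all `p` with
`fᵏ p = p`, `k ≥ 1`.  The modulus may depend on `p`; Jordan blocks are allowed. -/
def OneModulus {E : Type*} [NormedAddCommGroup E] [NormedSpace ℝ E] [FiniteDimensional ℝ E]
    {M : Type*} [TopologicalSpace M] [ChartedSpace E M] (f : M → M)
    (V : ∀ x : M, Submodule ℝ (TangentSpace 𝓘(ℝ, E) x)) : Prop :=
  ∀ (k : ℕ) (p : M), 1 ≤ k → f^[k] p = p → ∀ z w : ℂ, Eigenvalue f V k p z →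
    Eigenvalue f V k p w → ‖z‖ = ‖w‖

/-- The distortion of `f` on `V` is bounded along EACH periodic orbit, the bound may depend on the
orbit: for all `p` with `fᵏ p = p`, `k ≥ 1`, there is `K = K(p, k)` with
`‖D(fᵏ)^q v‖ / ‖v‖ ≤ K ‖D(fᵏ)^q w‖ / ‖w‖` for all `q ≥ 0`, `v, w ∈ V p` (written without
denominators).  In other words the return map `D(fᵏ)` on `V p` is conjugate to a conformal linear
map, by a conjugacy depending on `p`. -/
def DistortionOfEachOrbit {E : Type*} [NormedAddCommGroup E] [NormedSpace ℝ E]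
    {M : Type*} [TopologicalSpace M] [ChartedSpace E M] (f : M → M)
    (N : TangentBundle 𝓘(ℝ, E) M → ℝ) (V : ∀ x : M, Submodule ℝ (TangentSpace 𝓘(ℝ, E) x)) : Prop :=
  ∀ (k : ℕ) (p : M), 1 ≤ k → f^[k] p = p → ∃ K : ℝ, ∀ q : ℕ, ∀ v ∈ V p, ∀ w ∈ V p,
    N (tangentMap 𝓘(ℝ, E) 𝓘(ℝ, E) (f^[k * q]) ⟨p, v⟩) * N ⟨p, w⟩ ≤
      K * (N (tangentMap 𝓘(ℝ, E) 𝓘(ℝ, E) (f^[k * q]) ⟨p, w⟩) * N ⟨p, v⟩)

/-- **Anosov diffeomorphisms with a plane bundle, from the linear algebra at the periodic points.**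
Let `f` be a `C²` Anosov diffeomorphism of a closed connected smooth manifold `M`, with splitting
`TM = Es ⊕ Eu`, both bundles of rank at least two, and let `V` be one of the two bundles, of rank
exactly two.  Suppose that one of the following holds:

* the distortion of `f` on `V` is bounded along each periodic orbit, the bound may depend on the
  orbit (`DistortionOfEachOrbit`); or
* at each periodic point the two eigenvalues of the return map on `V` have the same modulus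
  (`OneModulus`), and at ONE periodic point they are not real.

Nothing is assumed on the other bundle, on transitivity, volumes or `M`.  Then

* `f` is topologically transitive;
* `f` is uniformly quasiconformal on `V` (`UniformlyQC`): the distortion of `Dfⁿ` on `V x` is
  bounded uniformly in `n ≥ 0` and `x ∈ M`; and
* `f` is topologically conjugate to a hyperbolic infra-toral automorphism: there are a matrix `A`
  in `GL(m, ℤ)` without eigenvalues of modulus one and a covering map `P : ℝᵐ → M` with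
  `f ∘ P = P ∘ A`, such that `P` is `ℤᵐ`-periodic, every fibre of `P` is a finite union of
  `ℤᵐ`-orbits, and the deck transformations of `P` (which are transitive on the fibres) are affine
  maps `x ↦ B x + c` with `B ∈ GL(m, ℤ)`. -/
theorem result (E : Type*) [NormedAddCommGroup E] [NormedSpace ℝ E] [FiniteDimensional ℝ E]
    (M : Type*) [TopologicalSpace M] [T2Space M] [CompactSpace M] [ConnectedSpace M]
    [ChartedSpace E M] [IsManifold 𝓘(ℝ, E) ∞ M] (f : Diffeomorph 𝓘(ℝ, E) 𝓘(ℝ, E) M M 1)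
    (hf2 : ContMDiff 𝓘(ℝ, E) 𝓘(ℝ, E) 2 f) (hf2' : ContMDiff 𝓘(ℝ, E) 𝓘(ℝ, E) 2 f.symm)
    (Es Eu : ∀ x : M, Submodule ℝ (TangentSpace 𝓘(ℝ, E) x)) (hA : IsAnosov f Es Eu)
    (N : TangentBundle 𝓘(ℝ, E) M → ℝ) (hN : IsTangentNorm N)
    (h2s : ∀ x, 2 ≤ Module.finrank ℝ (Es x)) (h2u : ∀ x, 2 ≤ Module.finrank ℝ (Eu x))
    (V : ∀ x : M, Submodule ℝ (TangentSpace 𝓘(ℝ, E) x)) (hV : V = Es ∨ V = Eu)
    (h2 : ∀ x, Module.finrank ℝ (V x) = 2)
    (h : DistortionOfEachOrbit f N V ∨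
      (OneModulus f V ∧ ∃ (k : ℕ) (p : M) (z : ℂ), 1 ≤ k ∧ f^[k] p = p ∧
        Eigenvalue f V k p z ∧ z.im ≠ 0)) :
    TopTransitive f ∧ UniformlyQC f N V ∧
    ∃ (m : ℕ) (A : Matrix (Fin m) (Fin m) ℤ) (P : (Fin m → ℝ) → M),
      IsUnit A.det ∧ HypMat A ∧ IsCoveringMap P ∧ Function.Surjective P ∧
      (∀ x, f (P x) = P ((A.map (Int.cast : ℤ → ℝ)).mulVec x)) ∧
      (∀ (x : Fin m → ℝ) (z : Fin m → ℤ), P (x + fun i => (z i : ℝ)) = P x) ∧
      (∀ a, ∃ S : Finset (Fin m → ℝ), ∀ x, P x = a → ∃ s ∈ S, ∃ z : Fin m → ℤ,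
        x = s + fun i => (z i : ℝ)) ∧
      ∀ x y, P x = P y → ∃ (B : Matrix (Fin m) (Fin m) ℤ) (c : Fin m → ℝ), IsUnit B.det ∧
        y = (B.map (Int.cast : ℤ → ℝ)).mulVec x + c ∧
        ∀ w, P ((B.map (Int.cast : ℤ → ℝ)).mulVec w + c) = P w := by
  obtain ⟨h1, h3, h4⟩ := Pool.Agent.D0H55.RC.main_V f hf2 hf2' Es Eu hA N hN h2s h2u V hV h2 h
  exact ⟨h1, h3, Pool.Agent.D0H55.RC.infra_form h4⟩

end Pool.Agent.Results.MP_5c499f_an.PlaneBundleToral
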